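import Mathlib

/-!
# Interface for MP_3bbc5b_al (frozen S01235) and MP_405479_al (frozen S01299)

Everything below is a definition or a statement (`S_...`) of a piece.

## Jacobi case, proof idea
`w(t) = (1-t)^al (1+t)^be` on `[-1,1]`, `mu v = int v w`.  Suppose `mu (f^m) = 0` for all `m >= 1`, `f` not constant.
`G_v(z) = int v w / (z - f)` for `z` outside the curve `K = f([-1,1])`.
* `G_(f v) = z G_v - mu v`, `(G_(q u))' = G_(dd u)`, where `q = (1-X^2) f'` and `dd u` is defined by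
  `((1-t^2) u w)' = (dd u) w`.
* `N = {v : mu (f^m v) = 0 for all m >= 0}` contains `f`, is a `C[f]`-module, and `q u in N -> dd u in N`.
  So on `N` the map `v |-> G_v` is `C[z]`-linear (`z = f`) and horizontal.
* Near `z = 0`, on a ray `z = r e`, the functions `v(t_j) w_j / f'(t_j)` (`t_j(r)` the branches of `f^(-1)`,
  `w_j` a branch of `w` along `t_j`) obey the same rules.  So `G_f = sum_j c_j f(t_j) w_j / f'(t_j)` on the ray
  near `0` (uniqueness for a linear ODE), and this tends to `0`.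
* But `G_f = z G_1 - mu 1 -> - mu 1 <> 0` (dominated convergence).  Contradiction.
-/

set_option autoImplicit false
open Polynomial Filter Topology

namespace Run7.h163.IM

/-! ### Laguerre -/

/-- The normalised Laguerre moment functional: `X^k` goes to `(al+1)(al+2)...(al+k)`. -/
noncomputable def lag (α : ℝ) (g : ℂ[X]) : ℂ :=
  g.sum (fun k c => c * ∏ i ∈ Finset.range k, ((α : ℂ) + 1 + (i : ℂ)))

/-- Piece LAG.  Proof: let `f = f_n X^n + ...`, `n >= 1` (the constant case is trivial), and `b_i = f_(n-i)/f_n`.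
Then `lag (f^m) / (f_n^m (al+1)_(nm)) = sum_i a_(m,i) / prod_(l<i) (al + n m - l)` where
`a_(m,i) = [y^i] (1 + b_1 y + ... + b_n y^n)^m = sum_(k<=i) binom(m,k) [y^i] (b_1 y + ... )^k`.
For fixed `i` the term tends to `(b_1/n)^i / i!`.  Domination: with `|b_j| <= B^j`, `B >= 1`,
`|a_(m,i)| <= B^i binom(m+i-1,i)` and `binom(m+i-1,i) / prod_(l<i) (al+nm-l) <= C 8^i / i!`
(for `i <= nm/2` every factor `(m+l)/(nm+al-l)` is bounded by a constant; for `i >= nm/2` use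
`binom(m+i-1,i) <= 2^(m+i)` and `m <= 2 i / n`).  Tannery (`tendsto_tsum_of_dominated_convergence`):
the ratio tends to `exp (b_1/n) <> 0`, so `lag (f^m) <> 0` for large `m`. -/
def S_LAG : Prop := ∀ (α : ℝ), -1 < α → ∀ f : ℂ[X], (∀ m : ℕ, 1 ≤ m → lag α (f ^ m) = 0) → f = 0

/-! ### Jacobi -/

/-- The Jacobi weight. -/
noncomputable def wt (α β t : ℝ) : ℝ := (1 - t) ^ α * (1 + t) ^ β

/-- Integration against the Jacobi weight. -/
noncomputable def mu (α β : ℝ) (v : ℂ[X]) : ℂ :=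
  ∫ t in (-1 : ℝ)..1, v.eval (t : ℂ) * (wt α β t : ℂ)

/-- `((1-t^2) u w)' = (dd u) w`. -/
noncomputable def dd (α β : ℝ) (u : ℂ[X]) : ℂ[X] :=
  (1 - X ^ 2) * derivative u + (C ((β : ℂ) - α) - C ((α : ℂ) + β + 2) * X) * u

/-- The Cauchy transform of the image of `v w dt` under `f`. -/
noncomputable def G (α β : ℝ) (f v : ℂ[X]) (z : ℂ) : ℂ :=
  ∫ t in (-1 : ℝ)..1, v.eval (t : ℂ) * (wt α β t : ℂ) / (z - f.eval (t : ℂ))

/-- Piece ANA, part 1 (integration by parts: `(1-t^2) u w` tends to `0` at both ends). -/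
def S_BYP : Prop := ∀ α β : ℝ, -1 < α → -1 < β → ∀ u : ℂ[X], mu α β (dd α β u) = 0

/-- Piece ANA, part 2 (derivative under the integral sign, then integration by parts:
`d/dz int q u w/(z-f) = - int q u w/(z-f)^2 = - int (1-t^2) u w d/dt (1/(z-f)) = int (dd u) w /(z-f)`). -/
def S_GDER : Prop := ∀ α β : ℝ, -1 < α → -1 < β → ∀ f u : ℂ[X], ∀ z : ℂ,
  (∀ t ∈ Set.Icc (-1 : ℝ) 1, z ≠ f.eval (t : ℂ)) →
  HasDerivAt (G α β f ((1 - X ^ 2) * derivative f * u)) (G α β f (dd α β u) z) z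

/-- Piece ANA, part 3 (linearity and `f/(z-f) = z/(z-f) - 1`). -/
def S_GALG : Prop := ∀ α β : ℝ, -1 < α → -1 < β → ∀ f : ℂ[X], ∀ z : ℂ,
  (∀ t ∈ Set.Icc (-1 : ℝ) 1, z ≠ f.eval (t : ℂ)) →
  (∀ v : ℂ[X], G α β f (f * v) z = z * G α β f v z - mu α β v) ∧
  (∀ u v : ℂ[X], G α β f (u + v) z = G α β f u z + G α β f v z) ∧
  (∀ (c : ℂ) (v : ℂ[X]), G α β f (C c * v) z = c * G α β f v z)

/-- Piece ANA, part 4 (dominated convergence: the integrand times `r` is bounded by `w/c` and tends to `0`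
outside the finitely many zeros of `f`). -/
def S_LIM : Prop := ∀ α β : ℝ, -1 < α → -1 < β → ∀ f : ℂ[X], f ≠ 0 → ∀ (e : ℂ) (c ε : ℝ), 0 < c → 0 < ε →
  (∀ r : ℝ, 0 < r → r < ε → ∀ t ∈ Set.Icc (-1 : ℝ) 1,
    c * (r + ‖f.eval (t : ℂ)‖) ≤ ‖(r : ℂ) * e - f.eval (t : ℂ)‖) →
  Tendsto (fun r : ℝ => (r : ℂ) * G α β f 1 ((r : ℂ) * e)) (𝓝[>] 0) (𝓝 0)

/-- Piece ANA, part 5. -/
def S_MU1 : Prop := ∀ α β : ℝ, -1 < α → -1 < β → mu α β 1 ≠ 0 ∧
  (∀ u v : ℂ[X], mu α β (u + v) = mu α β u + mu α β v) ∧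
  (∀ (c : ℂ) (v : ℂ[X]), mu α β (C c * v) = c * mu α β v)

/-- Piece DIR: a ray from `0` which stays away (in the sense of angles) from the curve `f([-1,1])`.
Proof: at each zero `t0` of `f` in `[-1,1]`, `f(t) = phi (t-t0)^k (1 + O(t-t0))`, so `f(t)/|f(t)|` has the limits
`phi/|phi|` and `(-1)^k phi/|phi|` from the two sides; take `e` different from these finitely many numbers
(compactness of `[-1,1]` for the constants: argue by contradiction with sequences, or cover). -/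
def S_DIR : Prop := ∀ f : ℂ[X], f ≠ 0 → ∃ e : ℂ, ‖e‖ = 1 ∧ ∃ c > (0 : ℝ), ∃ ε > (0 : ℝ),
  ∀ r : ℝ, 0 < r → r < ε → ∀ t ∈ Set.Icc (-1 : ℝ) 1,
    c * (r + ‖f.eval (t : ℂ)‖) ≤ ‖(r : ℂ) * e - f.eval (t : ℂ)‖

/-! Piece BR: the branches of `f^(-1)` and of `w` along the ray `r e`, `r` small.
Proof: at a zero `t0` of multiplicity `k`, `f = (t-t0)^k g`, `g(t0) <> 0`; with an analytic `k`-th root of `g` near
`t0`, `F(t) = (t-t0) g(t)^(1/k)` has `F'(t0) <> 0`, let `psi` be its local inverse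
(`HasStrictDerivAt.localInverse`); `t_j(r) = psi(zeta_j(r))`, `zeta_j(r) = r^(1/k) e_j`, `e_j^k = e` (`k` values).
`|f'(t_j)| >= const r^(1-1/k)`.  Put `w_j(r) = exp (int_(r1)^r (al/(t_j-1) + be/(t_j+1)) t_j')`; its modulus is
`const |t_j-1|^al |t_j+1|^be` because `Re (t_j'/(t_j-1)) = d/dr log|t_j-1|`, so `r |w_j/f'(t_j)|` is
`O(r^(1/k))` if `t0 <> 1, -1` and `O(r^((al+1)/k))` resp. `O(r^((be+1)/k))` if `t0 = 1` resp. `-1`.
For different zeros `t0` the `t_j(r)` are different for small `r`; the total number is `deg f`. -/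

/-- Piece BR1: the same as BR for the branches near one zero `t0` of `f` of multiplicity `k >= 1`. -/
def S_BR1 : Prop := ∀ α β : ℝ, -1 < α → -1 < β → ∀ (f : ℂ[X]) (t₀ : ℂ), f ≠ 0 → f.eval t₀ = 0 →
  ∀ e : ℂ, ‖e‖ = 1 →
  ∃ ε > (0 : ℝ), ∃ (t : Fin (f.rootMultiplicity t₀) → ℝ → ℂ) (w : Fin (f.rootMultiplicity t₀) → ℝ → ℂ),
    (∀ r : ℝ, 0 < r → r < ε → Function.Injective (fun j => t j r)) ∧
    ∀ j, (∀ r : ℝ, 0 < r → r < ε →
        f.eval (t j r) = (r : ℂ) * e ∧ (derivative f).eval (t j r) ≠ 0 ∧ t j r ≠ 1 ∧ t j r ≠ -1 ∧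
        w j r ≠ 0 ∧ HasDerivAt (t j) (e / (derivative f).eval (t j r)) r ∧
        HasDerivAt (w j) (w j r * ((α : ℂ) / (t j r - 1) + (β : ℂ) / (t j r + 1)) *
          (e / (derivative f).eval (t j r))) r) ∧
      Tendsto (fun r : ℝ => (r : ℂ) * w j r / (derivative f).eval (t j r)) (𝓝[>] 0) (𝓝 0) ∧
      Tendsto (t j) (𝓝[>] 0) (𝓝 t₀)

/-- Piece BR2 is `S_BR1 -> S_BR` (the sum of the multiplicities is the degree; the `t_j` for different zeros
have different limits, so they are different for small `r`). -/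
def S_BR : Prop := ∀ α β : ℝ, -1 < α → -1 < β → ∀ f : ℂ[X], 1 ≤ f.natDegree → ∀ e : ℂ, ‖e‖ = 1 →
  ∃ ε > (0 : ℝ), ∃ (t : Fin f.natDegree → ℝ → ℂ) (w : Fin f.natDegree → ℝ → ℂ),
    (∀ r : ℝ, 0 < r → r < ε → Function.Injective (fun j => t j r)) ∧
    ∀ j, (∀ r : ℝ, 0 < r → r < ε →
        f.eval (t j r) = (r : ℂ) * e ∧ (derivative f).eval (t j r) ≠ 0 ∧ t j r ≠ 1 ∧ t j r ≠ -1 ∧
        w j r ≠ 0 ∧ HasDerivAt (t j) (e / (derivative f).eval (t j r)) r ∧
        HasDerivAt (w j) (w j r * ((α : ℂ) / (t j r - 1) + (β : ℂ) / (t j r + 1)) *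
          (e / (derivative f).eval (t j r))) r) ∧
      Tendsto (fun r : ℝ => (r : ℂ) * w j r / (derivative f).eval (t j r)) (𝓝[>] 0) (𝓝 0)

/-- Piece ODE: uniqueness for a linear system on an open interval. -/
def S_ODE : Prop := ∀ (s : ℕ) (ε : ℝ) (M : ℝ → Matrix (Fin s) (Fin s) ℂ) (y : ℝ → Fin s → ℂ) (r₁ : ℝ),
  0 < r₁ → r₁ < ε → ContinuousOn M (Set.Ioo 0 ε) →
  (∀ r ∈ Set.Ioo 0 ε, HasDerivAt y ((M r).mulVec (y r)) r) → y r₁ = 0 →
  ∀ r ∈ Set.Ioo 0 ε, y r = 0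

/-- The Jacobi theorem. -/
def S_JAC : Prop := ∀ α β : ℝ, -1 < α → -1 < β → ∀ f : ℂ[X], (∀ m : ℕ, 1 ≤ m → mu α β (f ^ m) = 0) → f = 0

/-! ### The theorem over fields used for Hermite (a = 2X) and for MP_405479_al -/

/-- Field theorem: `(d/dX - a)` has no nonzero `f` with all powers in the image if `deg a >= 1`. -/
def S_K1 : Prop := ∀ (K : Type) [Field K] [CharZero K] (a f : K[X]), 1 ≤ a.natDegree →
  (∀ m : ℕ, 1 ≤ m → ∃ h : K[X], derivative h - a * h = f ^ m) → f = 0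

end Run7.h163.IM
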