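import Pool.Agent.Run7.h163.IM.Iface

/-! # Piece ODE: uniqueness for a linear system on an open interval -/

open Polynomial Filter Topology

namespace Run7.h163.IM

lemma mulVec_norm_le {s : ℕ} (A : Matrix (Fin s) (Fin s) ℂ) (x : Fin s → ℂ) :
    ‖A.mulVec x‖ ≤ (∑ i, ∑ j, ‖A i j‖) * ‖x‖ := by
  rw [pi_norm_le_iff_of_nonneg (by positivity)]
  intro i
  have h1 : ‖A.mulVec x i‖ ≤ ∑ j, ‖A i j‖ * ‖x‖ := by
    unfold Matrix.mulVec dotProduct
    refine (norm_sum_le _ _).trans (Finset.sum_le_sum fun j _ => ?_)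
    rw [norm_mul]
    exact mul_le_mul_of_nonneg_left (norm_le_pi_norm x j) (norm_nonneg _)
  refine h1.trans ?_
  rw [← Finset.sum_mul]
  apply mul_le_mul_of_nonneg_right _ (norm_nonneg _)
  exact Finset.single_le_sum (f := fun i => ∑ j, ‖A i j‖) (fun i _ => by positivity) (Finset.mem_univ i)

theorem ode : S_ODE := by
  intro s ε M y r₁ hr0 hr1 hM hy hz r hr
  obtain ⟨a, ha0, ha⟩ := exists_between (lt_min hr.1 hr0)
  obtain ⟨b, hb, hbε⟩ := exists_between (max_lt hr.2 hr1)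
  have hab : Set.Icc a b ⊆ Set.Ioo 0 ε := fun t ht => ⟨ha0.trans_le ht.1, ht.2.trans_lt hbε⟩
  have hcont : ContinuousOn (fun t => ∑ i, ∑ j, ‖M t i j‖) (Set.Icc a b) := by
    refine continuousOn_finset_sum _ fun i _ => continuousOn_finset_sum _ fun j _ => ?_
    have h1 : ContinuousOn (fun t => M t i j) (Set.Icc a b) :=
      (continuous_apply_apply i j).comp_continuousOn (hM.mono hab)
    exact h1.norm
  obtain ⟨C, hC⟩ := isCompact_Icc.bddAbove_image hcont
  have hC' : ∀ t ∈ Set.Icc a b, ∑ i, ∑ j, ‖M t i j‖ ≤ C := fun t ht => hC ⟨t, ht, rfl⟩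
  have hlip : ∀ t ∈ Set.Ioo a b, LipschitzOnWith C.toNNReal (fun x => (M t).mulVec x) Set.univ := by
    intro t ht
    apply LipschitzWith.lipschitzOnWith
    refine LipschitzWith.of_dist_le_mul fun x x' => ?_
    rw [dist_eq_norm, dist_eq_norm, ← Matrix.mulVec_sub]
    refine (mulVec_norm_le _ _).trans ?_
    apply mul_le_mul_of_nonneg_right _ (norm_nonneg _)
    exact (hC' t (Set.Ioo_subset_Icc_self ht)).trans (Real.le_coe_toNNReal C)
  have hra : r ∈ Set.Ioo a b := ⟨ha.trans_le (min_le_left _ _), (le_max_left _ _).trans_lt hb⟩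
  have hr1a : r₁ ∈ Set.Ioo a b := ⟨ha.trans_le (min_le_right _ _), (le_max_right _ _).trans_lt hb⟩
  have h := ODE_solution_unique_of_mem_Ioo (v := fun t x => (M t).mulVec x) (s := fun _ => Set.univ)
    (f := y) (g := fun _ => 0) hlip hr1a
    (fun t ht => ⟨hy t (hab (Set.Ioo_subset_Icc_self ht)), Set.mem_univ _⟩)
    (fun t _ => ⟨by simpa using hasDerivAt_const t (0 : Fin s → ℂ), Set.mem_univ _⟩) hz
  exact h hra

end Run7.h163.IM
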